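import Pool.Agent.E8helper11.LB.Stm

/-! Project LB, piece HALF: continuation of the Mellin transform to the right half plane. -/

set_option autoImplicit false

open Set MeasureTheory

namespace LB11

namespace HalfH10

theorem mellin_congr' {f g : ℝ → ℂ} (h : ∀ x, 0 < x → f x = g x) (s : ℂ) :
    mellin f s = mellin g s := by
  unfold mellin
  refine setIntegral_congr_fun measurableSet_Ioi fun x hx => ?_
  beta_reduce
  rw [h x hx]

theorem nice (φ : ℝ → ℂ) (K : ℝ) (hm : Measurable φ)
    (hb : ∀ x, 0 < x → ‖φ x‖ ≤ K * Real.exp (-x)) (s : ℂ) (hs : 0 < s.re) :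
    MellinConvergent φ s ∧ DifferentiableAt ℂ (mellin φ) s := by
  have hint : IntegrableOn φ (Ioi 0) := by
    refine Integrable.mono' ((integrableOn_exp_neg_Ioi 0).const_mul K) hm.aestronglyMeasurable ?_
    rw [ae_restrict_iff' measurableSet_Ioi]
    exact ae_of_all _ fun x hx => hb x hx
  have hloc := hint.locallyIntegrableOn
  have htop : φ =O[Filter.atTop] (fun t => Real.exp (-1 * t)) := by
    refine Asymptotics.IsBigO.of_bound K ?_
    filter_upwards [Filter.eventually_gt_atTop 0] with x hx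
    rw [Real.norm_of_nonneg (Real.exp_pos _).le, neg_one_mul]
    exact hb x hx
  have hbot : φ =O[nhdsWithin 0 (Ioi 0)] (fun t => t ^ (-(0 : ℝ))) := by
    refine Asymptotics.IsBigO.of_bound |K| ?_
    filter_upwards [self_mem_nhdsWithin] with x hx
    have hx' : 0 < x := hx
    rw [neg_zero, Real.rpow_zero, norm_one, mul_one]
    have h1 := hb x hx'
    have h2 : Real.exp (-x) ≤ 1 := Real.exp_le_one_iff.2 (by linarith)
    have h3 := Real.exp_pos (-x)
    have h4 := le_abs_self K
    have h5 := abs_nonneg K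
    nlinarith
  exact ⟨mellinConvergent_of_isBigO_rpow_exp one_pos hloc htop hbot hs,
    mellin_differentiableAt_of_isBigO_rpow_exp one_pos hloc htop hbot hs⟩

theorem hasMellin_one_Ioi {s : ℂ} (hs : s.re < 0) :
    HasMellin (indicator (Ioi 1) (fun _ => 1 : ℝ → ℂ)) s (-(1 / s)) := by
  have aux1 : (s - 1).re < -1 := by
    rw [Complex.sub_re, Complex.one_re]
    linarith
  have aux3 : MeasurableSet (Ioi (1 : ℝ)) := measurableSet_Ioi
  simp_rw [HasMellin, mellin, MellinConvergent, ← indicator_smul, IntegrableOn,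
    integrable_indicator_iff aux3, smul_eq_mul, integral_indicator aux3, mul_one, IntegrableOn,
    Measure.restrict_restrict_of_subset (Ioi_subset_Ioi (zero_le_one' ℝ))]
  refine ⟨integrableOn_Ioi_cpow_of_lt aux1 one_pos, ?_⟩
  rw [integral_Ioi_cpow_of_lt aux1 one_pos, sub_add_cancel, Complex.ofReal_one, Complex.one_cpow,
    neg_div]

theorem hasMellin_cpow_Ioi (a : ℂ) {s : ℂ} (hs : s.re + a.re < 0) :
    HasMellin (indicator (Ioi 1) (fun t => (t : ℂ) ^ a : ℝ → ℂ)) s (-(1 / (s + a))) := by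
  have := hasMellin_one_Ioi (by rwa [Complex.add_re] : (s + a).re < 0)
  simp_rw [HasMellin, ← MellinConvergent.cpow_smul, ← mellin_cpow_smul, ← indicator_smul,
    smul_eq_mul, mul_one] at this
  exact this

theorem pole_eq (θ x : ℝ) :
    ((1 / (θ * x ^ 2) : ℝ) : ℂ) = (1 / (θ : ℂ)) * (x : ℂ) ^ (-2 : ℂ) := by
  have h1 : (x : ℂ) ^ (-2 : ℂ) = ((x : ℂ) ^ 2)⁻¹ := by
    rw [Complex.cpow_neg, Complex.cpow_ofNat]
  rw [h1]
  push_cast
  rw [one_div, mul_inv, one_div]

theorem meas_f (θ : ℝ) : Measurable (f θ) := by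
  unfold f fR
  fun_prop

theorem meas_h (θ : ℝ) : Measurable (h θ) := by
  unfold h hR fR
  fun_prop

end HalfH10

open HalfH10 in
/-- **HALF.** -/
theorem t_HALF (h1 : S_HB) : S_HALF := by
  obtain ⟨C, hC, hB⟩ := h1
  intro θ hθ
  have hθ0 : (θ : ℂ) ≠ 0 := by
    have : (0 : ℝ) < θ := by linarith [hθ.1]
    exact_mod_cast this.ne'
  have he : 1 < Real.exp 1 := Real.one_lt_exp_iff.2 one_pos
  obtain ⟨u, hu⟩ : ∃ u : ℝ → ℂ, u = indicator (Ioc 0 1) (h θ) := ⟨_, rfl⟩
  obtain ⟨v, hv⟩ : ∃ v : ℝ → ℂ, v = indicator (Ioi 1) (f θ) := ⟨_, rfl⟩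
  have mu : Measurable u := hu ▸ (meas_h θ).indicator measurableSet_Ioc
  have mv : Measurable v := hv ▸ (meas_f θ).indicator measurableSet_Ioi
  have bu : ∀ x, 0 < x → ‖u x‖ ≤ (C * Real.exp 1) * Real.exp (-x) := by
    intro x hx
    rw [hu]
    by_cases hx1 : x ≤ 1
    · rw [indicator_of_mem (show x ∈ Ioc (0 : ℝ) 1 from ⟨hx, hx1⟩)]
      unfold h
      rw [Complex.norm_real, Real.norm_eq_abs]
      refine ((hB θ hθ x hx).1).trans ?_
      rw [mul_assoc, ← Real.exp_add]
      have : 1 ≤ Real.exp (1 + -x) := Real.one_le_exp (by linarith)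
      nlinarith
    · rw [indicator_of_notMem (show x ∉ Ioc (0 : ℝ) 1 from fun hc => hx1 hc.2), norm_zero]
      positivity
  have bv : ∀ x, 0 < x → ‖v x‖ ≤ (C * Real.exp 1) * Real.exp (-x) := by
    intro x hx
    rw [hv]
    by_cases hx1 : 1 < x
    · rw [indicator_of_mem (show x ∈ Ioi (1 : ℝ) from hx1)]
      unfold f
      rw [Complex.norm_real, Real.norm_eq_abs]
      refine ((hB θ hθ x hx).2.2 hx1.le).trans ?_
      have := Real.exp_pos (-x)
      nlinarith [mul_pos hC this]
    · rw [indicator_of_notMem (show x ∉ Ioi (1 : ℝ) from fun hc => hx1 hc), norm_zero]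
      positivity
  have nu := nice u _ mu bu
  have nv := nice v _ mv bv
  refine ⟨fun s => (s - 2) * (mellin u s + mellin v s) + 1 / θ, ?_, ?_, ?_⟩
  · intro s hs
    have hs' : 0 < s.re := hs
    exact (((differentiableAt_id.sub_const 2).mul ((nu s hs').2.add (nv s hs').2)).add_const
      _).differentiableWithinAt
  · intro s hs
    have hs0 : 0 < s.re := by linarith
    have hs2 : s - 2 ≠ 0 := by
      intro h0
      have : s = 2 := by linear_combination h0
      rw [this] at hs
      norm_num at hs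
    have hP := hasMellin_cpow_Ioc (-2 : ℂ) (s := s) (by simpa using hs)
    have hPs := hasMellin_const_smul hP.1 (1 / (θ : ℂ))
    have huv := hasMellin_add (nu s hs0).1 (nv s hs0).1
    have hall := hasMellin_add huv.1 hPs.1
    have e1 : mellin (f θ) s = mellin (fun t => (fun t => u t + v t) t +
        (fun t => (1 / (θ : ℂ)) • indicator (Ioc 0 1) (fun t : ℝ => (t : ℂ) ^ (-2 : ℂ)) t) t) s := by
      apply mellin_congr'
      intro x hx
      beta_reduce
      rw [hu, hv]
      by_cases hx1 : x ≤ 1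
      · rw [indicator_of_mem (show x ∈ Ioc (0 : ℝ) 1 from ⟨hx, hx1⟩),
          indicator_of_mem (show x ∈ Ioc (0 : ℝ) 1 from ⟨hx, hx1⟩),
          indicator_of_notMem (show x ∉ Ioi (1 : ℝ) from fun hc => (not_lt.2 hx1) hc),
          smul_eq_mul, ← pole_eq θ x]
        unfold f h hR
        push_cast
        ring
      · have hx1' : 1 < x := not_le.1 hx1
        rw [indicator_of_notMem (show x ∉ Ioc (0 : ℝ) 1 from fun hc => hx1 hc.2),
          indicator_of_notMem (show x ∉ Ioc (0 : ℝ) 1 from fun hc => hx1 hc.2),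
          indicator_of_mem (show x ∈ Ioi (1 : ℝ) from hx1'), smul_zero, add_zero, zero_add]
    rw [e1, hall.2, huv.2, hPs.2, hP.2, smul_eq_mul]
    have hs2' : s + -2 ≠ 0 := by rwa [← sub_eq_add_neg]
    field_simp
    ring
  · intro s hs0 hs
    have hs2 : s - 2 ≠ 0 := by
      intro h0
      have : s = 2 := by linear_combination h0
      rw [this] at hs
      norm_num at hs
    have hP := hasMellin_cpow_Ioi (-2 : ℂ) (s := s) (by
      have : (-2 : ℂ).re = -2 := by norm_num
      rw [this]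
      linarith)
    have hPs := hasMellin_const_smul hP.1 (1 / (θ : ℂ))
    have huv := hasMellin_add (nu s hs0).1 (nv s hs0).1
    have hall := hasMellin_sub huv.1 hPs.1
    have e1 : mellin (h θ) s = mellin (fun t => (fun t => u t + v t) t -
        (fun t => (1 / (θ : ℂ)) • indicator (Ioi 1) (fun t : ℝ => (t : ℂ) ^ (-2 : ℂ)) t) t) s := by
      apply mellin_congr'
      intro x hx
      beta_reduce
      rw [hu, hv]
      by_cases hx1 : x ≤ 1
      · rw [indicator_of_mem (show x ∈ Ioc (0 : ℝ) 1 from ⟨hx, hx1⟩),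
          indicator_of_notMem (show x ∉ Ioi (1 : ℝ) from fun hc => (not_lt.2 hx1) hc),
          indicator_of_notMem (show x ∉ Ioi (1 : ℝ) from fun hc => (not_lt.2 hx1) hc),
          smul_zero, sub_zero, add_zero]
      · have hx1' : 1 < x := not_le.1 hx1
        rw [indicator_of_notMem (show x ∉ Ioc (0 : ℝ) 1 from fun hc => hx1 hc.2),
          indicator_of_mem (show x ∈ Ioi (1 : ℝ) from hx1'),
          indicator_of_mem (show x ∈ Ioi (1 : ℝ) from hx1'), smul_eq_mul, ← pole_eq θ x]
        unfold f h hR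
        push_cast
        ring
    rw [e1, hall.2, huv.2, hPs.2, hP.2, smul_eq_mul]
    have hs2' : s + -2 ≠ 0 := by rwa [← sub_eq_add_neg]
    field_simp
    ring

end LB11
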